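import Mathlib
import Pool.Agent.H.MP_f4dda6_al.F

set_option autoImplicit false

namespace Pool.Agent.Results.MP_f4dda6_al.Far

open Pool.Agent.H.MP_bd6a20_al Pool.Agent.H.MP_f4dda6_al Set

variable {G : Type} [Group G]

/-- Vertices of the Schreier graph: right cosets. -/
abbrev Vtx (H : Subgroup G) : Type := Quotient (QuotientGroup.rightRel H)

/-- The right coset of `g`. -/
def vtx (H : Subgroup G) (g : G) : Vtx H := Quotient.mk _ g

/-- The directed edge labelled `s`. -/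
def Edge (H : Subgroup G) (s : G) (v w : Vtx H) : Prop := ∃ g, v = vtx H g ∧ w = vtx H (g * s)

/-- Balls of the Schreier graph, ignoring orientation. -/
def ball (S : Finset G) (H : Subgroup G) (v : Vtx H) : ℕ → Set (Vtx H)
  | 0 => {v}
  | n + 1 => ball S H v n ∪ {w | ∃ u ∈ ball S H v n, ∃ s ∈ S, Edge H s u w ∨ Edge H s w u}

/-- The ball of radius `n` about `v` is isomorphic to the Cayley ball as a rooted labelled graph. -/
def IsCopy (S : Finset G) (H : Subgroup G) (v : Vtx H) (n : ℕ) : Prop :=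
  ∃ φ : ball S ⊥ (vtx ⊥ 1) n ≃ ball S H v n, (∀ x, x.1 = vtx ⊥ 1 → (φ x).1 = v) ∧
    ∀ s ∈ S, ∀ x y, Edge ⊥ s x.1 y.1 ↔ Edge H s (φ x).1 (φ y).1

/-- Non-confined subgroups. -/
def NonConfined (H : Subgroup G) : Prop :=
  ∀ P : Finset G, 1 ∉ P → ∃ g : G, ∀ h ∈ H, g * h * g⁻¹ ∉ P

def B (S : Finset G) : ℕ → Set G
  | 0 => {1}
  | n + 1 => B S n ∪ {y | ∃ x ∈ B S n, ∃ s ∈ S, y = x * s ∨ y = x * s⁻¹}

theorem vtx_eq {H : Subgroup G} {a b : G} : vtx H a = vtx H b ↔ b * a⁻¹ ∈ H :=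
  Quotient.eq.trans QuotientGroup.rightRel_apply

theorem vtx_mul {H : Subgroup G} {a b : G} (h : vtx H a = vtx H b) (s : G) :
    vtx H (a * s) = vtx H (b * s) := vtx_eq.2 (by simpa [mul_assoc] using vtx_eq.1 h)

theorem mem_ball (S : Finset G) (H : Subgroup G) (g : G) (n : ℕ) (w : Vtx H) :
    w ∈ ball S H (vtx H g) n ↔ ∃ x ∈ B S n, w = vtx H (g * x) := by
  induction n generalizing w with
  | zero => simp [ball, B]
  | succ n ih =>
    constructor
    · rintro (h | ⟨u, hu, s, hs, h⟩)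
      · obtain ⟨x, hx, e⟩ := (ih w).1 h
        exact ⟨x, Or.inl hx, e⟩
      · obtain ⟨x, hx, rfl⟩ := (ih u).1 hu
        rcases h with ⟨a, e, rfl⟩ | ⟨a, rfl, e⟩
        · exact ⟨x * s, Or.inr ⟨x, hx, s, hs, Or.inl rfl⟩, mul_assoc g x s ▸ (vtx_mul e s).symm⟩
        · exact ⟨x * s⁻¹, Or.inr ⟨x, hx, s, hs, Or.inr rfl⟩,
            by simpa [mul_assoc] using (vtx_mul e s⁻¹).symm⟩
    · rintro ⟨y, hy | ⟨x, hx, s, hs, rfl | rfl⟩, rfl⟩
      · exact Or.inl ((ih _).2 ⟨y, hy, rfl⟩)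
      · exact Or.inr ⟨_, (ih _).2 ⟨x, hx, rfl⟩, s, hs, Or.inl ⟨_, rfl, by rw [mul_assoc]⟩⟩
      · exact Or.inr ⟨_, (ih _).2 ⟨x, hx, rfl⟩, s, hs, Or.inr ⟨_, rfl, by simp [mul_assoc]⟩⟩

theorem B_mono (S : Finset G) : Monotone (B S) := monotone_nat_of_le_succ fun _ => subset_union_left

theorem B_mul {S : Finset G} {m n : ℕ} {x y : G} (hx : x ∈ B S m) (hy : y ∈ B S n) :
    x * y ∈ B S (m + n) := by
  induction n generalizing y with
  | zero => rwa [mem_singleton_iff.1 hy, mul_one]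
  | succ n ih =>
    rcases hy with hy | ⟨z, hz, s, hs, h⟩
    · exact Or.inl (ih hy)
    · exact Or.inr ⟨_, ih hz, s, hs, h.imp (fun h => by rw [h, mul_assoc]) fun h => by rw [h, mul_assoc]⟩

theorem B_inv {S : Finset G} {n : ℕ} {x : G} (hx : x ∈ B S n) : x⁻¹ ∈ B S n := by
  induction n generalizing x with
  | zero => rwa [mem_singleton_iff.1 hx, inv_one, ← mem_singleton_iff.1 hx]
  | succ n ih =>
    rcases hx with hx | ⟨z, hz, s, hs, rfl | rfl⟩
    · exact Or.inl (ih hx)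
    · rw [mul_inv_rev, add_comm]
      exact B_mul (Or.inr ⟨1, rfl, s, hs, Or.inr (one_mul _).symm⟩) (ih hz)
    · rw [mul_inv_rev, add_comm, inv_inv]
      exact B_mul (Or.inr ⟨1, rfl, s, hs, Or.inl (one_mul _).symm⟩) (ih hz)

theorem B_pow {S : Finset G} {m : ℕ} {x : G} (hx : x ∈ B S m) (j : ℕ) : x ^ j ∈ B S (j * m) := by
  induction j with
  | zero => simp [B]
  | succ j ih => rw [pow_succ, add_mul, one_mul]; exact B_mul ih hx

theorem B_all {S : Finset G} (hS : Subgroup.closure (S : Set G) = ⊤) (x : G) : ∃ n, x ∈ B S n := by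
  have hx : x ∈ Subgroup.closure (S : Set G) := hS ▸ trivial
  induction hx using Subgroup.closure_induction_right with
  | one => exact ⟨0, rfl⟩
  | mul_right x _ s hs ih => exact ih.elim fun n h => ⟨n + 1, Or.inr ⟨x, h, s, hs, Or.inl rfl⟩⟩
  | mul_inv_cancel x _ s hs ih => exact ih.elim fun n h => ⟨n + 1, Or.inr ⟨x, h, s, hs, Or.inr rfl⟩⟩

theorem not_copy {S : Finset G} {H : Subgroup G} {g h : G} {n : ℕ} (hn : h ∈ B S n) (h1 : h ≠ 1)
    (hg : g * h * g⁻¹ ∈ H) : ¬ IsCopy S H (vtx H g) n := by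
  rintro ⟨φ, r, e⟩
  have mem : ∀ x ∈ B S n, vtx ⊥ x ∈ ball S ⊥ (vtx ⊥ 1) n := fun x hx =>
    (mem_ball _ _ _ _ _).2 ⟨x, hx, by rw [one_mul]⟩
  have key : ∀ m, ∀ hm : m ≤ n, ∀ x, ∀ hx : x ∈ B S m,
      (φ ⟨_, mem x (B_mono S hm hx)⟩).1 = vtx H (g * x) := by
    intro m
    induction m with
    | zero =>
      intro _ x hx
      obtain rfl : x = 1 := hx
      rw [mul_one]
      exact r _ rfl
    | succ m ih =>
      intro hm y hy'
      have hy'' := mem y (B_mono S hm hy')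
      obtain hy | ⟨x, hx, s, hs, rfl | rfl⟩ := hy'
      · exact ih (by omega) y hy
      · obtain ⟨a, e1, e2⟩ := (e s hs ⟨_, mem x (B_mono S (by omega : m ≤ n) hx)⟩ ⟨_, hy''⟩).1
          ⟨x, rfl, rfl⟩
        rw [ih (by omega) x hx] at e1
        rw [e2, ← mul_assoc, vtx_mul e1]
      · obtain ⟨a, e1, e2⟩ := (e s hs ⟨_, hy''⟩ ⟨_, mem x (B_mono S (by omega : m ≤ n) hx)⟩).1
          ⟨x * s⁻¹, rfl, by simp⟩
        rw [ih (by omega) x hx] at e2
        rw [e1, ← mul_assoc, vtx_mul e2, mul_inv_cancel_right]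
  have := φ.injective (Subtype.ext ((key n le_rfl h hn).trans ((vtx_eq.2 (by
    simpa [mul_assoc] using inv_mem hg)).trans (key 0 (Nat.zero_le n) 1 rfl).symm)))
  exact h1 (by simpa using vtx_eq.1 (congrArg Subtype.val this))

noncomputable def pt (k : ℕ) : ℝ := 1 / 2 ^ (k ^ 2)

section
variable {ρ : G →* (ℝ ≃o ℝ)} (hi : Function.Injective ρ) (h1 : Hyp ρ) (h0 : Hyp (flip.comp ρ))
include h1 h0

theorem spread (T : Finset (ℝ × ℝ)) (hT : ∀ I ∈ T, 0 ≤ I.1 ∧ I.1 < I.2 ∧ I.2 ≤ 1) :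
    ∃ g : G, ∀ I ∈ T, ∃ k, I.1 < ρ g (pt k) ∧ ρ g (pt k) < I.2 := by
  classical
  induction T using Finset.induction_on_min_value (fun I : ℝ × ℝ => I.1) with
  | empty => exact ⟨1, by simp⟩
  | insert I T _ hI ih =>
    obtain ⟨g, hg⟩ := ih fun J hJ => hT J (Finset.mem_insert_of_mem hJ)
    choose! κ hκ using hg
    obtain ⟨i0, i1, i2⟩ := hT I (Finset.mem_insert_self _ _)
    obtain ⟨p, p1, p2, p3⟩ : ∃ p, I.1 < p ∧ p ≤ I.2 ∧ ∀ J ∈ T, p ≤ ρ g (pt (κ J)) := by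
      refine ⟨(insert I.2 (T.image fun J => ρ g (pt (κ J)))).min' (by simp), ?_,
        Finset.min'_le _ _ (by simp), fun J hJ => Finset.min'_le _ _
          (Finset.mem_insert_of_mem (Finset.mem_image_of_mem _ hJ))⟩
      rw [Finset.lt_min'_iff]
      intro z hz
      rcases Finset.mem_insert.1 hz with rfl | hz
      · exact i1
      · obtain ⟨J, hJ, rfl⟩ := Finset.mem_image.1 hz
        exact (hI _ hJ).trans_lt (hκ _ hJ).1
    obtain ⟨k, hk⟩ := exists_pow_lt_of_lt_one (pos h0 g⁻¹ (i0.trans_lt p1))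
      (show (1 / 2 : ℝ) < 1 by norm_num)
    have hk' : ρ g (pt k) < p := by
      rw [← inv_app (ρ := ρ) g p]
      refine (ρ g).strictMono (lt_of_le_of_lt ?_ hk)
      rw [pt, ← one_div_pow]
      exact pow_le_pow_of_le_one (by norm_num) (by norm_num) (Nat.le_self_pow two_ne_zero k)
    obtain ⟨f, f1, -, f3⟩ := h0.pushL p I.1 (ρ g (pt k)) (p2.trans i2) p1 i0
      (pos h0 g (by unfold pt; positivity))
    refine ⟨f * g, fun J hJ => ?_⟩
    rcases Finset.mem_insert.1 hJ with rfl | hJ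
    · refine ⟨k, by rwa [mul_app], ?_⟩
      rw [mul_app]
      exact (((ρ f).strictMono hk').trans_eq (f1 p self_mem_Ici)).trans_le p2
    · exact ⟨κ J, by rw [mul_app, f1 _ (p3 J hJ)]; exact hκ J hJ⟩

theorem lip (f : G) : ∃ c : ℕ, ∀ x, 0 ≤ x → ρ f x ≤ 2 ^ c * x := by
  obtain ⟨m, b, hb, h⟩ := h0.germ f
  obtain ⟨c, hc⟩ := pow_unbounded_of_one_lt (max (max 1 (2 ^ m)) (1 / (1 - b)) : ℝ) one_lt_two
  have c1 := (le_max_left _ _).trans ((le_max_left _ _).trans hc.le)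
  have c2 := (le_max_right _ _).trans ((le_max_left _ _).trans hc.le)
  have c3 := (le_max_right _ _).trans hc.le
  rw [div_le_iff₀ (by linarith)] at c3
  refine ⟨c, fun x hx => ?_⟩
  rcases le_total x (1 - b) with h2 | h2
  · have := h (1 - x) (by linarith) (by linarith)
    simp only [MonoidHom.comp_apply, flip_apply, sub_sub_cancel, sub_right_inj] at this
    rw [this]
    exact mul_le_mul_of_nonneg_right c2 hx
  · rcases le_total x 1 with h3 | h3
    · have := (ρ f).monotone h3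
      rw [h1.one f 1 le_rfl] at this
      nlinarith
    · rw [h1.one f x h3]
      nlinarith

theorem lipB (S : Finset G) : ∃ c : ℕ, ∀ n, ∀ g ∈ B S n, ∀ x, 0 ≤ x → ρ g x ≤ 2 ^ (c * n) * x := by
  choose κ hκ using lip h1 h0
  have nn : ∀ (g : G) x, 0 ≤ x → 0 ≤ ρ g x := fun g x hx =>
    (h0.zero g 0 le_rfl).ge.trans ((ρ g).monotone hx)
  set c := S.sup fun s => κ s + κ s⁻¹
  refine ⟨c, fun n => ?_⟩
  induction n with
  | zero =>
    intro g hg x _
    simp [mem_singleton_iff.1 hg]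
  | succ n ih =>
    have step : ∀ g ∈ B S n, ∀ s : G, κ s ≤ c → ∀ x, 0 ≤ x → ρ (g * s) x ≤ 2 ^ (c * (n + 1)) * x := by
      intro g hg s hs x hx
      rw [mul_app, mul_add, mul_one, pow_add, mul_assoc]
      refine (ih g hg _ (nn s x hx)).trans (mul_le_mul_of_nonneg_left ((hκ s x hx).trans
        (mul_le_mul_of_nonneg_right (pow_le_pow_right₀ one_le_two hs) hx)) (by positivity))
    rintro y (hy | ⟨g, hg, s, hs, rfl | rfl⟩) x hx
    · exact (ih y hy x hx).trans (mul_le_mul_of_nonneg_right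
        (pow_le_pow_right₀ one_le_two (Nat.mul_le_mul_left _ (Nat.le_succ n))) hx)
    · exact step g hg s (le_self_add.trans (Finset.le_sup (f := fun s => κ s + κ s⁻¹) hs)) x hx
    · exact step g hg s⁻¹ (le_add_self.trans (Finset.le_sup (f := fun s => κ s + κ s⁻¹) hs)) x hx

include hi in
theorem nonconf : NonConfined (Fix ρ (range pt)) := by
  classical
  intro P hP
  have : ∀ p ∈ P, ∃ I : ℝ × ℝ, (0 ≤ I.1 ∧ I.1 < I.2 ∧ I.2 ≤ 1) ∧
      ∀ z, I.1 < z → z < I.2 → ρ p z ≠ z := by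
    intro p hp
    obtain ⟨a, ha, y, y0, y1, y2⟩ := up hi h1 h0 (E := Subgroup.zpowers p)
      (by rw [Ne, Subgroup.zpowers_eq_bot]; exact fun e => hP (e ▸ hp))
    refine ⟨(y, ρ a y), ⟨y0.le, y1, y2.le⟩, fun z z1 z2 e => ?_⟩
    have : a ∈ Fix ρ {z} := (Subgroup.zpowers_le.2 (by rintro _ rfl; exact e)) ha
    exact ((ρ a).strictMono z1).not_gt (by rwa [this z rfl])
  choose! I hI using this
  obtain ⟨g, hg⟩ := spread h1 h0 (P.image I) (by simpa using fun p hp => (hI p hp).1)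
  refine ⟨g, fun h hh hp => ?_⟩
  obtain ⟨k, k1, k2⟩ := hg _ (Finset.mem_image_of_mem I hp)
  exact (hI _ hp).2 _ k1 k2 (by rw [mul_app, mul_app, inv_app', hh _ ⟨k, rfl⟩])

theorem short (S : Finset G) (hS : Subgroup.closure (S : Set G) = ⊤) : ∃ C e : ℕ, ∀ j : ℕ,
    ∃ h ∈ B S (C * (j + 1)), h ≠ 1 ∧ h ∈ Fix ρ (Iic (1 / 2 ^ (j + e + 1)) ∪ Ici (1 / 2 ^ (j + e))) := by
  obtain ⟨t, -, -, -, -, t2, -⟩ := h0.bump' 0 1 le_rfl one_pos le_rfl
  obtain ⟨b, hb, ht⟩ := t2.inv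
  obtain ⟨e, he⟩ := exists_pow_lt_of_lt_one (lt_min (sub_pos.2 hb) one_pos)
    (show (1 / 2 : ℝ) < 1 by norm_num)
  rw [one_div_pow, lt_min_iff] at he
  have ht' : ∀ m : ℕ, ρ t⁻¹ (1 / 2 ^ (m + e)) = 1 / 2 ^ (m + 1 + e) := by
    intro m
    have h2 : (1 : ℝ) / 2 ^ (m + e) ≤ 1 / 2 ^ e :=
      one_div_le_one_div_of_le (by positivity) (pow_le_pow_right₀ one_le_two le_add_self)
    have h3 : (0 : ℝ) < 1 / 2 ^ (m + e) := by positivity
    have := ht (1 - 1 / 2 ^ (m + e)) (by linarith) (by linarith)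
    rw [← map_inv] at this
    simp only [MonoidHom.comp_apply, flip_apply, sub_sub_cancel, sub_right_inj] at this
    rw [this]
    ring
  have hp : ∀ j m : ℕ, ρ (t⁻¹ ^ j) (1 / 2 ^ (m + e)) = 1 / 2 ^ (j + m + e) := by
    intro j m
    induction j with
    | zero => simp
    | succ j ih => rw [pow_succ', mul_app, ih, ht', add_right_comm j m 1]
  have a1 : (0 : ℝ) < 1 / 2 ^ (1 + e) := by positivity
  have a2 : (1 : ℝ) / 2 ^ (1 + e) < 1 / 2 ^ (0 + e) :=
    one_div_lt_one_div_of_lt (by positivity) (pow_lt_pow_right₀ one_lt_two (by omega))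
  have a3 : (1 : ℝ) / 2 ^ (0 + e) ≤ 1 := by rw [zero_add]; exact he.2.le
  obtain ⟨s, r, r1, s1, s2, -, s3⟩ := h1.bump' _ _ a1.le a2 a3
  obtain ⟨j, j1, j2⟩ := exists_between (max_lt r1 a2)
  obtain ⟨η, hη, s4⟩ := s3 j j (lt_of_le_of_lt (le_max_left _ _) j1) (by linarith)
  have s5 := s4 j le_rfl le_rfl
  obtain ⟨w, w1, w2⟩ := h1.cut s j _ (by linarith) a3 j2 (by linarith)
  have hw : w ∈ Fix ρ (Iic (1 / 2 ^ (1 + e)) ∪ Ici (1 / 2 ^ (0 + e))) := by
    rintro x (hx | hx)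
    · rw [w2 x (le_trans hx (le_of_max_le_right j1.le)), s1 x hx]
    · exact w1 x hx
  have hw1 : w ≠ 1 := fun h => by
    have := w2 j le_rfl
    rw [h, map_one, RelIso.one_apply] at this
    linarith
  obtain ⟨n1, m1⟩ := B_all hS t
  obtain ⟨n2, m2⟩ := B_all hS t⁻¹
  obtain ⟨n3, m3⟩ := B_all hS w
  refine ⟨n1 + n2 + n3, e, fun i => ⟨t⁻¹ ^ i * w * (t⁻¹ ^ i)⁻¹, ?_, fun h => hw1 (conj_eq_one_iff.1 h), ?_⟩⟩
  · rw [inv_pow t, inv_inv, ← inv_pow]
    exact B_mono S (by nlinarith) (B_mul (B_mul (B_pow m2 i) m3) (B_pow m1 i))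
  · have := conj_fix hw (t⁻¹ ^ i)
    rwa [hp, hp, add_zero, add_right_comm i 1 e] at this

theorem far' (S : Finset G) (hS : Subgroup.closure (S : Set G) = ⊤) (K : ℕ) :
    ∀ᶠ n in Filter.atTop, ∀ v ∈ ball S (Fix ρ (range pt)) (vtx _ 1) (K * n),
      ¬ IsCopy S (Fix ρ (range pt)) v n := by
  obtain ⟨c, hc⟩ := lipB h1 h0 S
  obtain ⟨C, e, hC⟩ := short h1 h0 S hS
  refine Filter.eventually_atTop.2 ⟨(C + 1) * (c * K * (C + 1) * 2 + e + 4), fun n hn v hv => ?_⟩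
  obtain ⟨g, hg, rfl⟩ := (mem_ball _ _ _ _ _).1 hv
  rw [one_mul]
  set r := n / (C + 1) with hr
  have r1 : c * K * (C + 1) * 2 + e + 4 ≤ r := (Nat.le_div_iff_mul_le (by omega)).2 (by linarith)
  have r2 : (C + 1) * r ≤ n := Nat.mul_div_le _ _
  have r3 : n < (C + 1) * (r + 1) := Nat.lt_mul_div_succ _ (by omega)
  by_cases hj : ∃ j < r, ∀ k, ρ g⁻¹ (pt k) ∈ Iic (1 / 2 ^ (j + e + 1)) ∪ Ici (1 / 2 ^ (j + e))
  · obtain ⟨j, hj, hk⟩ := hj
    obtain ⟨h, m1, m2, m3⟩ := hC j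
    refine not_copy (B_mono S (by nlinarith) m1) m2 ?_
    rintro _ ⟨k, rfl⟩
    rw [mul_app, mul_app, m3 _ (hk k), inv_app]
  · exfalso
    simp only [not_exists, not_and, not_forall, mem_union, mem_Iic, mem_Ici, not_or, not_le] at hj
    choose! κ hκ using hj
    have inj : InjOn κ (Finset.range r) := by
      intro i hi j hj hij
      have a := hκ i (by simpa using hi)
      have b := hκ j (by simpa using hj)
      rw [hij] at a
      have l1 := (pow_lt_pow_iff_right₀ one_lt_two).1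
        (lt_of_one_div_lt_one_div (by positivity) (a.1.trans b.2))
      have l2 := (pow_lt_pow_iff_right₀ one_lt_two).1
        (lt_of_one_div_lt_one_div (by positivity) (b.1.trans a.2))
      omega
    have := Finset.card_le_card_of_injOn (t := Finset.range (r - 1)) κ (fun j hj => by
      have hj' : j < r := by simpa using hj
      have a := (hκ j hj').1.trans_le (hc _ _ (B_inv hg) _ (by unfold pt; positivity))
      rw [pt, mul_one_div, div_lt_div_iff₀ (by positivity) (by positivity), one_mul, ← pow_add,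
        pow_lt_pow_iff_right₀ one_lt_two] at a
      rw [Finset.coe_range, mem_Iio]
      by_contra hk
      obtain ⟨q, hq⟩ : ∃ q, r = q + 1 := ⟨r - 1, by omega⟩
      have b : q ^ 2 ≤ κ j ^ 2 := Nat.pow_le_pow_left (by omega) 2
      have d : c * (K * n) ≤ c * K * (C + 1) * (r + 1) := by
        rw [← mul_assoc, mul_assoc (c * K)]
        exact Nat.mul_le_mul_left _ r3.le
      rw [hq] at d r1 hj'
      generalize c * K * (C + 1) = A at d r1
      nlinarith [Nat.mul_le_mul_left q (show A * 2 + e + 3 ≤ q by omega)]) inj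
    simp at this
    omega

end

theorem result : ∃ H : Subgroup F, NonConfined H ∧
    ∀ S : Finset F, Subgroup.closure (S : Set F) = ⊤ → ∀ K : ℕ, ∀ᶠ n in Filter.atTop,
      ∀ v ∈ ball S H (vtx H 1) (K * n), ¬ IsCopy S H v n :=
  ⟨_, nonconf Subtype.val_injective hyp1 hyp0, far' hyp1 hyp0⟩

end Pool.Agent.Results.MP_f4dda6_al.Far
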